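import Pool.Agent.Lib.MP_0b8c1e_lc.Bounded

set_option autoImplicit false

/-!
# Dense Graph Partition with parts of bounded size

The definitions (`edgesIn`, `density`, `OPT`) are in `Pool/Agent/Lib/MP_0b8c1e_lc/Defs.lean`.
-/

namespace Pool.Agent.Results.MP_0b8c1e_lc.BoundedParts

open Finset Pool.Agent.Lib.MP_0b8c1e_lc

/-- Let `k ≥ 1`. Every partition `P` of the vertex set of a finite graph has a refinement `Q` into
parts of at most `k` vertices with `d(Q) ≥ (1 - 1 / k) d(P)`, and the constant `1 - 1 / k` is best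
possible, even for the comparison with the optimum: for every `c > 1 - 1 / k` some finite graph `G`
(a complete graph) has `d(Q) < c OPT(G)` for all partitions `Q` into parts of at most `k`
vertices. -/
theorem result (k : ℕ) (hk : 1 ≤ k) :
    (∀ (V : Type) [Fintype V] [DecidableEq V] (G : SimpleGraph V)
      (P : Finpartition (univ : Finset V)),
      ∃ Q : Finpartition (univ : Finset V), Q ≤ P ∧ (∀ B ∈ Q.parts, #B ≤ k) ∧
        (1 - 1 / (k : ℝ)) * density G P ≤ density G Q) ∧
    (∀ c : ℝ, 1 - 1 / (k : ℝ) < c → ∃ (n : ℕ) (G : SimpleGraph (Fin n)),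
      ∀ Q : Finpartition (univ : Finset (Fin n)), (∀ B ∈ Q.parts, #B ≤ k) →
        density G Q < c * OPT G) := by
  refine ⟨fun V _ _ G P => exists_bounded_parts G hk P, ?_⟩
  intro c hc
  have hk0 : (0 : ℝ) < k := by exact_mod_cast hk
  have hk1 : (1 : ℝ) / k ≤ 1 := by
    rw [div_le_one hk0]; exact_mod_cast hk
  set b : ℝ := 1 - 1 / (k : ℝ) with hb
  have hb0 : 0 ≤ b := by rw [hb]; linarith
  have hc0 : 0 < c := lt_of_le_of_lt hb0 hc
  obtain ⟨n, hn⟩ := exists_nat_gt (c / (c - b))
  have hcb : 0 < c - b := by linarith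
  have hn0 : (0 : ℝ) < n := lt_trans (by positivity) hn
  have hnpos : 0 < n := by exact_mod_cast hn0
  refine ⟨n, ⊤, fun Q hQ => ?_⟩
  have : Nonempty (Fin n) := ⟨⟨0, hnpos⟩⟩
  have h1 := density_complete_le hk Q hQ
  have h2 := density_complete_top (V := Fin n)
  rw [Fintype.card_fin] at h1 h2
  rw [div_lt_iff₀ hcb] at hn
  have h3 : c * (((n : ℝ) - 1) / 2) ≤ c * OPT (⊤ : SimpleGraph (Fin n)) :=
    mul_le_mul_of_nonneg_left h2 hc0.le
  refine lt_of_le_of_lt h1 (lt_of_lt_of_le ?_ h3)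
  nlinarith

end Pool.Agent.Results.MP_0b8c1e_lc.BoundedParts
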