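import Pool.Agent.Lib.MP_0b8c1e_lc.Gap

set_option autoImplicit false

/-!
# Dense Graph Partition on graphs without a clique on `r + 1` vertices

The definitions (`edgesIn`, `density`, `OPT`, `IsCliquePacking`, `packingNumber`) are in
`Pool/Agent/Lib/MP_0b8c1e_lc/Defs.lean`.
-/

namespace Pool.Agent.Results.MP_0b8c1e_lc.CliqueGap

open Pool.Agent.Lib.MP_0b8c1e_lc

/-- Let `r ≥ 2` and let `G` be a graph with `n` vertices, no clique on `r + 1` vertices and
maximum degree at most `Δ ≥ 1`; let `τ` be the maximum number of vertex-disjoint cliques on `r`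
vertices of `G`. Then
`(n - r τ) / (4 r (r - 1) Δ) ≤ (r - 1) n / (2 r) - OPT(G) ≤ (r - 1) (n - r τ) / (2 r)`.
For `r = 3`: `(n - 3 τ) / (24 Δ) ≤ n / 3 - OPT(G) ≤ (n - 3 τ) / 3`. -/
theorem result {V : Type*} [Fintype V] [DecidableEq V] (G : SimpleGraph V)
    (r : ℕ) (hr : 2 ≤ r) (hG : G.CliqueFree (r + 1))
    (Δ : ℕ) (hΔ1 : 1 ≤ Δ) (hΔ : ∀ v, (G.neighborSet v).ncard ≤ Δ) :
    ((Fintype.card V : ℝ) - r * packingNumber G r) / (4 * r * (r - 1) * Δ) ≤
      (r - 1) / (2 * r) * (Fintype.card V : ℝ) - OPT G ∧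
    (r - 1) / (2 * r) * (Fintype.card V : ℝ) - OPT G ≤
      (r - 1) / (2 * r) * ((Fintype.card V : ℝ) - r * packingNumber G r) :=
  clique_gap G r hr hG hΔ1 hΔ

end Pool.Agent.Results.MP_0b8c1e_lc.CliqueGap
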