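import Pool.Agent.Lib.MP_0b8c1e_lc.PC.Fin

set_option autoImplicit false

/-!
# Dense Graph Partition has no approximation scheme

Definitions: `edgesIn`, `density`, `OPT` are in `Pool/Agent/Lib/MP_0b8c1e_lc/Defs.lean`; `CNF3`,
`unsat` in `SatDefs.lean`; `labelPartition` in `PtDens.lean`; `Formula`, `code`, `formulaInput`,
`graphInput`, `Approximates`, `HasPTAS`, `Sparse` in `PtDefs.lean`; `DecidesSat` in `PC/Fin.lean`.
Programs (`Cmd`, `Expr`, `Store`) with `exec` and `cost` are in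
`Pool/Agent/Lib/MP_711ea9_lc/Lang.lean`.
-/

namespace Pool.Agent.Results.MP_0b8c1e_lc.NoPTAS

open Finset Pool.Agent.Lib.MP_0b8c1e_lc Pool.Agent.Lib.MP_711ea9_lc
open Pool.Agent.Lib.MP_0b8c1e_lc.PC (DecidesSat)

/-- There is a `δ > 0` such that 3SAT can be reduced in polynomial time to the problem to
distinguish, for 3-colourable graphs of maximum degree at most 6 with `n` vertices, the case
`OPT = n / 3` from `OPT ≤ (1 - δ) n / 3`. So a polynomial-time algorithm which finds, on such graphs,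
a partition of density at least `(1 - δ') OPT` with `δ' < δ` yields a polynomial-time algorithm for
3SAT, and so does an approximation scheme. The PCP theorem is proved, not cited. -/
theorem result : ∃ δ : ℝ, 0 < δ ∧
    (∃ (red : Cmd) (K : ℕ), ∀ (m : ℕ) (φ : Formula m), 1 ≤ m →
      ∃ (n : ℕ) (G : SimpleGraph (Fin n)), 1 ≤ n ∧ Sparse n G ∧
        ((∃ a, unsat φ a = 0) → OPT G = (n : ℝ) / 3) ∧
        ((¬ ∃ a, unsat φ a = 0) → OPT G ≤ (1 - δ) * ((n : ℝ) / 3)) ∧
        red.exec (formulaInput φ) = graphInput G ∧ red.cost (formulaInput φ) ≤ (m + 2) ^ K) ∧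
    (∀ (δ' : ℝ) (p : Cmd), δ' < δ → Approximates p Sparse δ' → ∃ q : Cmd, DecidesSat q) ∧
    (HasPTAS → ∃ q : Cmd, DecidesSat q) := by
  obtain ⟨δ, hδ, h1, h2⟩ := PC.gap_main
  exact ⟨δ, hδ, h1, h2, PC.sat_of_PTAS⟩

end Pool.Agent.Results.MP_0b8c1e_lc.NoPTAS
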