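import Pool.Agent.Lib.MP_0b8c1e_lc.SatGap

set_option autoImplicit false

/-!
# A gap-preserving reduction from bounded-occurrence 3SAT to Dense Graph Partition

The definitions `edgesIn`, `density`, `OPT` are in `Pool/Agent/Lib/MP_0b8c1e_lc/Defs.lean`; those of
3-CNF formulas (`CNF3`, `occurrences`, `unsat`) and of the explicit graph `satGraph B φ` of a
formula in `Pool/Agent/Lib/MP_0b8c1e_lc/SatDefs.lean`.
-/

namespace Pool.Agent.Results.MP_0b8c1e_lc.SatReduction

open Finset Pool.Agent.Lib.MP_0b8c1e_lc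

/-- Let `φ` be a 3-CNF formula with `m` clauses in which every variable occurs at least once and at
most `B` times, and let `G = satGraph B φ`, a graph on `n` vertices. Then `G` is 3-colourable, has
maximum degree at most `6` and `n ≤ 42 B m`. Up to constant factors the deficiency
`n / 3 - OPT(G)` is the least number of clauses falsified by an assignment: it is at most
`2 unsat(a)` for every assignment `a`, and for every partition `P` some assignment `a` has
`unsat(a) ≤ 144 B (n / 3 - d(P))`. In particular, for `δ < ε / (2016 B ^ 2)`, the density of any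
partition `P` with `d(P) ≥ (1 - δ) OPT(G)` is above `(1 - ε / (2016 B ^ 2)) n / 3` if `φ` is
satisfiable, and is not if every assignment falsifies at least `ε m` clauses. -/
theorem result {X : Type*} [Fintype X] [DecidableEq X] {m : ℕ} (hm : 0 < m) (B : ℕ) [NeZero B]
    (φ : CNF3 X m) (hφ : ∀ x, 1 ≤ #(occurrences φ x) ∧ #(occurrences φ x) ≤ B) :
    (satGraph B φ).Colorable 3 ∧
    (∀ v, ((satGraph B φ).neighborSet v).ncard ≤ 6) ∧
    Fintype.card (Vtx X m B) ≤ 42 * B * m ∧
    (∀ a : X → Bool,
      (Fintype.card (Vtx X m B) : ℝ) / 3 - OPT (satGraph B φ) ≤ 2 * unsat φ a) ∧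
    (∀ P : Finpartition (univ : Finset (Vtx X m B)), ∃ a : X → Bool, (unsat φ a : ℝ) ≤
      144 * B * ((Fintype.card (Vtx X m B) : ℝ) / 3 - density (satGraph B φ) P)) ∧
    (∀ ε δ : ℝ, 0 < ε → δ < ε / (2016 * B ^ 2) →
      ∀ P : Finpartition (univ : Finset (Vtx X m B)),
        (1 - δ) * OPT (satGraph B φ) ≤ density (satGraph B φ) P →
        ((∃ a, unsat φ a = 0) →
          (1 - ε / (2016 * B ^ 2)) * ((Fintype.card (Vtx X m B) : ℝ) / 3) <
            density (satGraph B φ) P) ∧
        ((∀ a, ε * m ≤ unsat φ a) →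
          density (satGraph B φ) P ≤
            (1 - ε / (2016 * B ^ 2)) * ((Fintype.card (Vtx X m B) : ℝ) / 3))) := by
  have hB := fun x => (hφ x).2
  have hcard := card_vtx_le (B := B) φ fun x => (hφ x).1
  have hB1 : (1 : ℝ) ≤ B := by
    have : 1 ≤ B := NeZero.one_le
    exact_mod_cast this
  have hB0 : (0 : ℝ) < B := by linarith
  have hn : (0 : ℝ) < Fintype.card (Vtx X m B) := by
    have : 0 < Fintype.card (Vtx X m B) := Fintype.card_pos_iff.mpr ⟨Vtx.cls 0 ⟨0, hm⟩ false⟩
    exact_mod_cast this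
  refine ⟨satGraph_colorable φ, satGraph_degree_le φ hB, hcard, sat_complete φ hB,
    sat_sound φ hB, ?_⟩
  intro ε δ hε hδ P hP
  refine ⟨?_, ?_⟩
  · rintro ⟨a, ha⟩
    have h1 := sat_complete φ hB a
    rw [ha] at h1
    obtain ⟨P', hP'⟩ := exists_density_eq_OPT (satGraph B φ)
    obtain ⟨a', ha'⟩ := sat_sound φ hB P'
    rw [hP'] at ha'
    have h2 : 0 ≤ 144 * (B : ℝ) *
        ((Fintype.card (Vtx X m B) : ℝ) / 3 - OPT (satGraph B φ)) :=
      le_trans (Nat.cast_nonneg _) ha'
    have h3 : 0 ≤ (Fintype.card (Vtx X m B) : ℝ) / 3 - OPT (satGraph B φ) := by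
      by_contra hneg
      push Not at hneg
      have : 144 * (B : ℝ) * ((Fintype.card (Vtx X m B) : ℝ) / 3 - OPT (satGraph B φ)) < 0 :=
        mul_neg_of_pos_of_neg (by positivity) hneg
      linarith
    have h4 : OPT (satGraph B φ) = (Fintype.card (Vtx X m B) : ℝ) / 3 := by
      push_cast at h1
      linarith
    rw [h4] at hP
    refine lt_of_lt_of_le ?_ hP
    exact mul_lt_mul_of_pos_right (by linarith) (by linarith)
  · intro h
    obtain ⟨a, ha⟩ := sat_sound φ hB P
    have h1 := (h a).trans ha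
    have h2 : (Fintype.card (Vtx X m B) : ℝ) ≤ 42 * B * m := by exact_mod_cast hcard
    have h3 : ε / (2016 * (B : ℝ) ^ 2) * ((Fintype.card (Vtx X m B) : ℝ) / 3) ≤
        ε * m / (144 * B) := by
      rw [div_mul_div_comm, div_le_div_iff₀ (by positivity) (by positivity)]
      have h4 : ε * (Fintype.card (Vtx X m B) : ℝ) ≤ ε * (42 * B * m) :=
        mul_le_mul_of_nonneg_left h2 hε.le
      have h5 := mul_le_mul_of_nonneg_right h4 (by positivity : (0 : ℝ) ≤ 144 * B)
      calc ε * (Fintype.card (Vtx X m B) : ℝ) * (144 * B) ≤ ε * (42 * B * m) * (144 * B) := h5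
        _ = ε * m * (2016 * (B : ℝ) ^ 2 * 3) := by ring
    have h6 : ε * m / (144 * B) ≤ (Fintype.card (Vtx X m B) : ℝ) / 3 -
        density (satGraph B φ) P := by
      rw [div_le_iff₀ (by positivity)]
      linarith
    linarith

end Pool.Agent.Results.MP_0b8c1e_lc.SatReduction
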